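import Mathlib
import Pool.Agent.TH407.MV.Defs
set_option autoImplicit false

/-!
# The local `L⁴` bound from the kernel bound and the positive kernel lemma
-/

namespace Pool.Agent.TH368.MV

open Pool.Agent.TH407 Pool.Agent.TH407.MV
open MeasureTheory Set Complex
open scoped ENNReal NNReal Real ComplexConjugate

lemma chi_nonneg (s : ℝ) : 0 ≤ chi s :=
  mul_nonneg (Real.smoothTransition.nonneg _) (Real.smoothTransition.nonneg _)

lemma chi_le_one (s : ℝ) : chi s ≤ 1 :=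
  mul_le_one₀ (Real.smoothTransition.le_one _) (Real.smoothTransition.nonneg _)
    (Real.smoothTransition.le_one _)

lemma chi_eq_one {s : ℝ} (h : |s| ≤ 1) : chi s = 1 := by
  have h1 := abs_le.1 h
  unfold chi
  rw [Real.smoothTransition.one_of_one_le (by linarith), Real.smoothTransition.one_of_one_le
    (by linarith), mul_one]

lemma chi_eq_zero {s : ℝ} (h : 2 < |s|) : chi s = 0 := by
  unfold chi
  rcases lt_abs.1 h with h1 | h1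
  · rw [Real.smoothTransition.zero_of_nonpos (by linarith : 2 - s ≤ 0), mul_zero]
  · rw [Real.smoothTransition.zero_of_nonpos (by linarith : 2 + s ≤ 0), zero_mul]

lemma chi_cont : Continuous chi := by
  unfold chi
  exact (Real.smoothTransition.continuous.comp (continuous_const.add continuous_id)).mul
    (Real.smoothTransition.continuous.comp (continuous_const.sub continuous_id))

lemma ph_cont (ε : ℝ) : Continuous (ph ε) := by
  unfold ph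
  refine (continuous_id.pow 2).div (by fun_prop) fun x => ?_
  have := Real.sqrt_nonneg (1 + ε ^ 2 * x ^ 2)
  positivity

lemma cd_cont (δ : ℝ) : Continuous (cd δ) := by
  unfold cd
  refine Continuous.inv₀ (by fun_prop) fun x => ?_
  have : 0 < 1 + δ ^ 2 * x ^ 2 := by positivity
  exact (Real.sqrt_pos.2 this).ne'

lemma wv_cont (δ : ℝ) : Continuous fun p : (ℝ × ℝ) × ℝ => wv δ p.1 p.2 := by
  unfold wv
  have := cd_cont δ
  fun_prop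

lemma dS_cont : Continuous fun w : (ℝ × ℝ) × (ℝ × ℝ) => dS w.1.1 w.1.2 w.2.1 w.2.2 := by
  unfold dS
  fun_prop

/-- The cut-off. -/
noncomputable def Ch (a0 b0 r : ℝ) (y : ℝ × ℝ) : ℝ :=
  chi ((y.1 - a0) / r) * chi ((y.2 - b0) / r)

lemma Ch_cont (a0 b0 r : ℝ) : Continuous (Ch a0 b0 r) := by
  unfold Ch
  have := chi_cont
  fun_prop

lemma Ch_nonneg (a0 b0 r : ℝ) (y : ℝ × ℝ) : 0 ≤ Ch a0 b0 r y :=
  mul_nonneg (chi_nonneg _) (chi_nonneg _)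

lemma Ch_le_one (a0 b0 r : ℝ) (y : ℝ × ℝ) : Ch a0 b0 r y ≤ 1 :=
  mul_le_one₀ (chi_le_one _) (chi_nonneg _) (chi_le_one _)

lemma Ch_eq_one {a0 b0 r : ℝ} (hr : 0 < r) {y : ℝ × ℝ} (h1 : |y.1 - a0| ≤ r)
    (h2 : |y.2 - b0| ≤ r) : Ch a0 b0 r y = 1 := by
  unfold Ch
  rw [chi_eq_one, chi_eq_one, mul_one]
  · rw [abs_div, abs_of_pos hr, div_le_one hr]
    exact h2
  · rw [abs_div, abs_of_pos hr, div_le_one hr]
    exact h1

lemma Ch_eq_zero {a0 b0 r : ℝ} (hr : 0 < r) {y : ℝ × ℝ}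
    (h : y ∉ Metric.closedBall ((a0, b0) : ℝ × ℝ) (2 * r)) : Ch a0 b0 r y = 0 := by
  rw [Metric.mem_closedBall, not_le, Prod.dist_eq, lt_max_iff] at h
  unfold Ch
  rcases h with h | h
  · rw [chi_eq_zero, zero_mul]
    rw [abs_div, abs_of_pos hr, lt_div_iff₀ hr]
    rwa [Real.dist_eq] at h
  · rw [chi_eq_zero (s := (y.2 - b0) / r), mul_zero]
    rw [abs_div, abs_of_pos hr, lt_div_iff₀ hr]
    rwa [Real.dist_eq] at h

/-- Bounded measurable functions vanishing off a set of finite measure are integrable. -/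
lemma int_of {X : Type} [MeasureSpace X] {f : X → ℂ} {s : Set X} {C : ℝ}
    (hf : Measurable f) (hb : ∀ x, ‖f x‖ ≤ C) (hs : volume s < ∞) (h0 : ∀ x, x ∉ s → f x = 0) :
    Integrable f := by
  have h1 : IntegrableOn f s := by
    refine Measure.integrableOn_of_bounded (M := C) hs.ne hf.aestronglyMeasurable ?_
    exact Filter.Eventually.of_forall fun x => hb x
  refine (integrableOn_iff_integrable_of_support_subset ?_).1 h1
  intro x hx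
  by_contra hxs
  exact hx (h0 x hxs)

/-- The integrand. -/
noncomputable def qq (A : ℝ → ℂ) (δ ε t : ℝ) (G : ℝ → ℂ) (p : (ℝ × ℝ) × ℝ) : ℂ :=
  cexp (I * ((t * ph ε (wv δ p.1 p.2) : ℝ) : ℂ)) * (A (wv δ p.1 p.2) * G p.2)

lemma TT_eq (A : ℝ → ℂ) (δ ε t : ℝ) (G : ℝ → ℂ) (y : ℝ × ℝ) :
    TT A δ ε t G y = ∫ x : ℝ, qq A δ ε t G (y, x) := rfl

lemma norm_exp_I (s : ℝ) : ‖cexp (I * (s : ℂ))‖ = 1 := by
  rw [mul_comm]
  exact Complex.norm_exp_ofReal_mul_I s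

section

variable {A : ℝ → ℂ} {δ ε t : ℝ} {G : ℝ → ℂ} {B r : ℝ}

lemma qq_meas (hA : Continuous A) (hG : Measurable G) : Measurable (qq A δ ε t G) := by
  have h1 := wv_cont δ
  have h2 : Continuous fun p : (ℝ × ℝ) × ℝ =>
      cexp (I * ((t * ph ε (wv δ p.1 p.2) : ℝ) : ℂ)) := by
    have h3 := (ph_cont ε).comp h1
    exact Complex.continuous_exp.comp (continuous_const.mul
      (Complex.continuous_ofReal.comp (continuous_const.mul h3)))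
  exact h2.measurable.mul ((hA.comp h1).measurable.mul (hG.comp measurable_snd))

lemma qq_bd (hA : ∀ x, ‖A x‖ ≤ 1) (hG : ∀ x, ‖G x‖ ≤ B) (p : (ℝ × ℝ) × ℝ) :
    ‖qq A δ ε t G p‖ ≤ B := by
  unfold qq
  rw [norm_mul, norm_exp_I, one_mul, norm_mul]
  calc ‖A (wv δ p.1 p.2)‖ * ‖G p.2‖ ≤ 1 * B :=
        mul_le_mul (hA _) (hG _) (norm_nonneg _) zero_le_one
    _ = B := one_mul B

lemma qq_zero {p : (ℝ × ℝ) × ℝ} (h : G p.2 = 0) : qq A δ ε t G p = 0 := by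
  unfold qq
  rw [h, mul_zero, mul_zero]

/-- The product of four integrands, with the cut-off. -/
noncomputable def FF (A : ℝ → ℂ) (δ ε t : ℝ) (G : ℝ → ℂ) (a0 b0 r : ℝ)
    (p : (ℝ × ℝ) × ((ℝ × ℝ) × (ℝ × ℝ))) : ℂ :=
  (Ch a0 b0 r p.1 : ℂ) * ((qq A δ ε t G (p.1, p.2.1.1) * qq A δ ε t G (p.1, p.2.1.2)) *
    conj (qq A δ ε t G (p.1, p.2.2.1) * qq A δ ε t G (p.1, p.2.2.2)))

variable {a0 b0 : ℝ}

lemma FF_int (hA : Continuous A) (hA1 : ∀ x, ‖A x‖ ≤ 1) (hG : Measurable G)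
    (hGB : ∀ x, ‖G x‖ ≤ B) (hB : 0 ≤ B) (hr : 0 < r) (h0 : ∀ x, r < |x| → G x = 0) :
    Integrable (FF A δ ε t G a0 b0 r) := by
  have hq := qq_meas (δ := δ) (ε := ε) (t := t) hA hG
  have hqb := qq_bd (δ := δ) (ε := ε) (t := t) hA1 hGB
  have hm : Measurable (FF A δ ε t G a0 b0 r) := by
    have m1 : Measurable fun p : (ℝ × ℝ) × ((ℝ × ℝ) × (ℝ × ℝ)) => (Ch a0 b0 r p.1 : ℂ) :=
      Complex.measurable_ofReal.comp ((Ch_cont a0 b0 r).measurable.comp measurable_fst)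
    have m2 : Measurable fun p : (ℝ × ℝ) × ((ℝ × ℝ) × (ℝ × ℝ)) =>
        qq A δ ε t G (p.1, p.2.1.1) := hq.comp (by fun_prop)
    have m3 : Measurable fun p : (ℝ × ℝ) × ((ℝ × ℝ) × (ℝ × ℝ)) =>
        qq A δ ε t G (p.1, p.2.1.2) := hq.comp (by fun_prop)
    have m4 : Measurable fun p : (ℝ × ℝ) × ((ℝ × ℝ) × (ℝ × ℝ)) =>
        qq A δ ε t G (p.1, p.2.2.1) := hq.comp (by fun_prop)
    have m5 : Measurable fun p : (ℝ × ℝ) × ((ℝ × ℝ) × (ℝ × ℝ)) =>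
        qq A δ ε t G (p.1, p.2.2.2) := hq.comp (by fun_prop)
    exact m1.mul ((m2.mul m3).mul
      (Complex.continuous_conj.measurable.comp (m4.mul m5)))
  have hb : ∀ p, ‖FF A δ ε t G a0 b0 r p‖ ≤ 1 * ((B * B) * (B * B)) := by
    intro p
    unfold FF
    rw [norm_mul, norm_mul, norm_mul, RCLike.norm_conj, norm_mul, Complex.norm_real,
      Real.norm_eq_abs, abs_of_nonneg (Ch_nonneg _ _ _ _)]
    have e1 := hqb (p.1, p.2.1.1)
    have e2 := hqb (p.1, p.2.1.2)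
    have e3 := hqb (p.1, p.2.2.1)
    have e4 := hqb (p.1, p.2.2.2)
    refine mul_le_mul (Ch_le_one _ _ _ _) ?_ (by positivity) zero_le_one
    refine mul_le_mul (mul_le_mul e1 e2 (norm_nonneg _) hB)
      (mul_le_mul e3 e4 (norm_nonneg _) hB) (by positivity) (by positivity)
  set S : Set ((ℝ × ℝ) × ((ℝ × ℝ) × (ℝ × ℝ))) :=
    Metric.closedBall ((a0, b0) : ℝ × ℝ) (2 * r) ×ˢ
      ((Icc (-r) r ×ˢ Icc (-r) r) ×ˢ (Icc (-r) r ×ˢ Icc (-r) r)) with hS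
  have hSc : IsCompact S := (isCompact_closedBall _ _).prod
    ((isCompact_Icc.prod isCompact_Icc).prod (isCompact_Icc.prod isCompact_Icc))
  refine int_of (s := S) hm hb hSc.measure_lt_top ?_
  intro p hp
  have hG0 : ∀ x, x ∉ Icc (-r) r → G x = 0 := by
    intro x hx
    apply h0
    by_contra hcon
    exact hx (abs_le.1 (not_lt.1 hcon))
  unfold FF
  by_cases c1 : p.1 ∈ Metric.closedBall ((a0, b0) : ℝ × ℝ) (2 * r)
  · by_cases c2 : p.2.1.1 ∈ Icc (-r) r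
    · by_cases c3 : p.2.1.2 ∈ Icc (-r) r
      · by_cases c4 : p.2.2.1 ∈ Icc (-r) r
        · by_cases c5 : p.2.2.2 ∈ Icc (-r) r
          · exact absurd ⟨c1, ⟨c2, c3⟩, ⟨c4, c5⟩⟩ hp
          · rw [qq_zero (p := (p.1, p.2.2.2)) (hG0 _ c5)]
            simp
        · rw [qq_zero (p := (p.1, p.2.2.1)) (hG0 _ c4)]
          simp
      · rw [qq_zero (p := (p.1, p.2.1.2)) (hG0 _ c3)]
        simp
    · rw [qq_zero (p := (p.1, p.2.1.1)) (hG0 _ c2)]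
      simp
  · rw [Ch_eq_zero hr c1]
    simp

lemma FF_inner (y : ℝ × ℝ) : ∫ w : (ℝ × ℝ) × (ℝ × ℝ), FF A δ ε t G a0 b0 r (y, w) =
    ((Ch a0 b0 r y * ‖TT A δ ε t G y‖ ^ 4 : ℝ) : ℂ) := by
  have e1 : ∫ z : ℝ × ℝ, qq A δ ε t G (y, z.1) * qq A δ ε t G (y, z.2) =
      TT A δ ε t G y * TT A δ ε t G y := by
    rw [TT_eq]
    exact integral_prod_mul (fun x => qq A δ ε t G (y, x)) (fun x => qq A δ ε t G (y, x))
  have e2 : ∫ z : ℝ × ℝ, conj (qq A δ ε t G (y, z.1) * qq A δ ε t G (y, z.2)) =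
      conj (TT A δ ε t G y * TT A δ ε t G y) := by
    rw [integral_conj, e1]
  have e3 : ∫ w : (ℝ × ℝ) × (ℝ × ℝ), (qq A δ ε t G (y, w.1.1) * qq A δ ε t G (y, w.1.2)) *
      conj (qq A δ ε t G (y, w.2.1) * qq A δ ε t G (y, w.2.2)) =
      (TT A δ ε t G y * TT A δ ε t G y) * conj (TT A δ ε t G y * TT A δ ε t G y) := by
    rw [← e2, ← e1]
    exact integral_prod_mul (fun z : ℝ × ℝ => qq A δ ε t G (y, z.1) * qq A δ ε t G (y, z.2))
      (fun z : ℝ × ℝ => conj (qq A δ ε t G (y, z.1) * qq A δ ε t G (y, z.2)))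
  unfold FF
  simp only
  rw [integral_const_mul, e3, Complex.mul_conj, Complex.normSq_eq_norm_sq, norm_mul]
  push_cast
  ring

/-- The kernel of `LocK`. -/
noncomputable def KK (A : ℝ → ℂ) (δ ε t a0 b0 r : ℝ) (x1 x2 x3 x4 : ℝ) : ℂ :=
  ∫ y : ℝ × ℝ, ((chi ((y.1 - a0) / r) * chi ((y.2 - b0) / r) : ℝ) : ℂ) *
    (A (wv δ y x1) * A (wv δ y x2) * conj (A (wv δ y x3)) * conj (A (wv δ y x4))) *
    cexp (I * ((t * (ph ε (wv δ y x1) + ph ε (wv δ y x2) - ph ε (wv δ y x3) -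
      ph ε (wv δ y x4)) : ℝ) : ℂ))

lemma conj_exp_I (s : ℝ) : conj (cexp (I * (s : ℂ))) = cexp (-(I * (s : ℂ))) := by
  rw [← Complex.exp_conj, map_mul, Complex.conj_I, Complex.conj_ofReal, neg_mul]

lemma FF_outer (w : (ℝ × ℝ) × (ℝ × ℝ)) :
    ∫ y : ℝ × ℝ, FF A δ ε t G a0 b0 r (y, w) =
      (G w.1.1 * G w.1.2 * conj (G w.2.1) * conj (G w.2.2)) *
        KK A δ ε t a0 b0 r w.1.1 w.1.2 w.2.1 w.2.2 := by
  unfold KK
  rw [← integral_const_mul]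
  congr 1
  funext y
  unfold FF qq Ch
  simp only [map_mul, conj_exp_I]
  have e : cexp (I * ((t * (ph ε (wv δ y w.1.1) + ph ε (wv δ y w.1.2) - ph ε (wv δ y w.2.1) -
      ph ε (wv δ y w.2.2)) : ℝ) : ℂ)) =
      cexp (I * ((t * ph ε (wv δ y w.1.1) : ℝ) : ℂ)) *
      cexp (I * ((t * ph ε (wv δ y w.1.2) : ℝ) : ℂ)) *
      cexp (-(I * ((t * ph ε (wv δ y w.2.1) : ℝ) : ℂ))) *
      cexp (-(I * ((t * ph ε (wv δ y w.2.2) : ℝ) : ℂ))) := by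
    rw [← Complex.exp_add, ← Complex.exp_add, ← Complex.exp_add]
    congr 1
    push_cast
    ring
  rw [e]
  ring

end

theorem locL4_of (h3 : LocK) (h4 : Schur) : LocL4 := by
  intro a0 b0 δ0 ε0 ha hb
  obtain ⟨r, C, hr, hr1, hC, hK⟩ := h3 a0 b0 δ0 ε0 ha hb
  obtain ⟨C4, hS⟩ := h4
  refine ⟨r, C.toNNReal * C4, hr, hr1, ?_⟩
  intro δ ε t hδ hε ht A hA G B hG h0 hGB
  have hK' := hK δ ε t hδ hε ht A hA
  obtain ⟨A1, A2, -, hA1, -, hAb⟩ := hA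
  have hAc : Continuous A := continuous_iff_continuousAt.2 fun x => (hA1 x).continuousAt
  have hAb' : ∀ x, ‖A x‖ ≤ 1 := fun x => (hAb x).1
  have hGB' : ∀ x, ‖G x‖ ≤ (B : ℝ) := by
    intro x
    have h1 := hGB x
    rw [enorm_le_coe] at h1
    exact_mod_cast h1
  have hint := FF_int (δ := δ) (ε := ε) (t := t) (a0 := a0) (b0 := b0) hAc hAb' hG hGB' B.2 hr h0
  -- the integral over `y`
  have i1 : Integrable fun y : ℝ × ℝ =>
      ((Ch a0 b0 r y * ‖TT A δ ε t G y‖ ^ 4 : ℝ) : ℂ) := by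
    have h1 := hint.integral_prod_left
    refine h1.congr (Filter.Eventually.of_forall fun y => ?_)
    exact FF_inner y
  have i2 : Integrable fun y : ℝ × ℝ => Ch a0 b0 r y * ‖TT A δ ε t G y‖ ^ 4 := by
    have h1 := i1.re
    refine h1.congr (Filter.Eventually.of_forall fun y => ?_)
    simp only [RCLike.re_to_complex, Complex.ofReal_re]
  have n0 : ∀ y : ℝ × ℝ, 0 ≤ Ch a0 b0 r y * ‖TT A δ ε t G y‖ ^ 4 := fun y =>
    mul_nonneg (Ch_nonneg _ _ _ _) (by positivity)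
  have s1 : ∫⁻ y in {y : ℝ × ℝ | |y.1 - a0| ≤ r ∧ |y.2 - b0| ≤ r}, ‖TT A δ ε t G y‖ₑ ^ 4 ≤
      ∫⁻ y, ENNReal.ofReal (Ch a0 b0 r y * ‖TT A δ ε t G y‖ ^ 4) := by
    have hms : MeasurableSet {y : ℝ × ℝ | |y.1 - a0| ≤ r ∧ |y.2 - b0| ≤ r} := by
      have c1 : IsClosed {y : ℝ × ℝ | |y.1 - a0| ≤ r} :=
        isClosed_le (by fun_prop) continuous_const
      have c2 : IsClosed {y : ℝ × ℝ | |y.2 - b0| ≤ r} :=
        isClosed_le (by fun_prop) continuous_const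
      exact (c1.inter c2).measurableSet
    calc ∫⁻ y in {y : ℝ × ℝ | |y.1 - a0| ≤ r ∧ |y.2 - b0| ≤ r}, ‖TT A δ ε t G y‖ₑ ^ 4
        = ∫⁻ y in {y : ℝ × ℝ | |y.1 - a0| ≤ r ∧ |y.2 - b0| ≤ r},
            ENNReal.ofReal (Ch a0 b0 r y * ‖TT A δ ε t G y‖ ^ 4) := by
          refine setLIntegral_congr_fun hms fun y hy => ?_
          have hy' : |y.1 - a0| ≤ r ∧ |y.2 - b0| ≤ r := hy
          rw [Ch_eq_one hr hy'.1 hy'.2, one_mul, ENNReal.ofReal_pow (norm_nonneg _),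
            ofReal_norm]
      _ ≤ _ := setLIntegral_le_lintegral _ _
  have s2 : ∫⁻ y, ENNReal.ofReal (Ch a0 b0 r y * ‖TT A δ ε t G y‖ ^ 4) =
      ‖∫ y : ℝ × ℝ, ∫ w, FF A δ ε t G a0 b0 r (y, w)‖ₑ := by
    rw [← ofReal_integral_eq_lintegral_ofReal i2 (Filter.Eventually.of_forall n0)]
    simp only [FF_inner]
    rw [integral_complex_ofReal, ← ofReal_norm, Complex.norm_real, Real.norm_eq_abs,
      abs_of_nonneg (integral_nonneg n0)]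
  have s3 : ∫ y : ℝ × ℝ, ∫ w, FF A δ ε t G a0 b0 r (y, w) =
      ∫ w, ∫ y : ℝ × ℝ, FF A δ ε t G a0 b0 r (y, w) :=
    integral_integral_swap (f := fun y w => FF A δ ε t G a0 b0 r (y, w)) hint
  have mG : Measurable fun x => ‖G x‖ₑ := hG.enorm
  set hh : (ℝ × ℝ) × (ℝ × ℝ) → ℝ≥0∞ := fun w =>
    ‖G w.1.1‖ₑ * ‖G w.1.2‖ₑ * ‖G w.2.1‖ₑ * ‖G w.2.2‖ₑ *
      ENNReal.ofReal (1 / (1 + t * dS w.1.1 w.1.2 w.2.1 w.2.2) ^ 2) with hhd
  have mh : Measurable hh := by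
    have m0 : Measurable fun w : (ℝ × ℝ) × (ℝ × ℝ) =>
        ENNReal.ofReal (1 / (1 + t * dS w.1.1 w.1.2 w.2.1 w.2.2) ^ 2) := by
      refine ENNReal.measurable_ofReal.comp ?_
      have h1 := dS_cont.measurable
      exact measurable_const.div ((measurable_const.add (measurable_const.mul h1)).pow_const 2)
    have m1 : Measurable fun w : (ℝ × ℝ) × (ℝ × ℝ) => ‖G w.1.1‖ₑ := mG.comp (by fun_prop)
    have m2 : Measurable fun w : (ℝ × ℝ) × (ℝ × ℝ) => ‖G w.1.2‖ₑ := mG.comp (by fun_prop)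
    have m3 : Measurable fun w : (ℝ × ℝ) × (ℝ × ℝ) => ‖G w.2.1‖ₑ := mG.comp (by fun_prop)
    have m4 : Measurable fun w : (ℝ × ℝ) × (ℝ × ℝ) => ‖G w.2.2‖ₑ := mG.comp (by fun_prop)
    exact (((m1.mul m2).mul m3).mul m4).mul m0
  have s4 : ∀ w, ‖∫ y : ℝ × ℝ, FF A δ ε t G a0 b0 r (y, w)‖ₑ ≤ ENNReal.ofReal C * hh w := by
    intro w
    by_cases hw : |w.1.1| ≤ r ∧ |w.1.2| ≤ r ∧ |w.2.1| ≤ r ∧ |w.2.2| ≤ r
    · obtain ⟨c1, c2, c3, c4⟩ := hw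
      have h1 := hK' w.1.1 w.1.2 w.2.1 w.2.2 c1 c2 c3 c4
      have h2 : ‖KK A δ ε t a0 b0 r w.1.1 w.1.2 w.2.1 w.2.2‖ₑ ≤
          ENNReal.ofReal C * ENNReal.ofReal (1 / (1 + t * dS w.1.1 w.1.2 w.2.1 w.2.2) ^ 2) := by
        rw [← ENNReal.ofReal_mul hC.le, mul_one_div, ← ofReal_norm]
        exact ENNReal.ofReal_le_ofReal h1
      rw [FF_outer, enorm_mul, enorm_mul, enorm_mul, enorm_mul, RCLike.enorm_conj,
        RCLike.enorm_conj]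
      calc ‖G w.1.1‖ₑ * ‖G w.1.2‖ₑ * ‖G w.2.1‖ₑ * ‖G w.2.2‖ₑ *
            ‖KK A δ ε t a0 b0 r w.1.1 w.1.2 w.2.1 w.2.2‖ₑ ≤
          ‖G w.1.1‖ₑ * ‖G w.1.2‖ₑ * ‖G w.2.1‖ₑ * ‖G w.2.2‖ₑ * (ENNReal.ofReal C *
            ENNReal.ofReal (1 / (1 + t * dS w.1.1 w.1.2 w.2.1 w.2.2) ^ 2)) := by
            gcongr
        _ = ENNReal.ofReal C * hh w := by
            rw [hhd]
            ring
    · have h1 : G w.1.1 * G w.1.2 * conj (G w.2.1) * conj (G w.2.2) = 0 := by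
        simp only [not_and_or, not_le] at hw
        rcases hw with c | c | c | c
        · rw [h0 _ c]; simp
        · rw [h0 _ c]; simp
        · rw [h0 _ c]; simp
        · rw [h0 _ c]; simp
      rw [FF_outer, h1, zero_mul, enorm_zero]
      exact zero_le
  have s5 : ‖∫ w, ∫ y : ℝ × ℝ, FF A δ ε t G a0 b0 r (y, w)‖ₑ ≤ ENNReal.ofReal C * ∫⁻ w, hh w := by
    calc ‖∫ w, ∫ y : ℝ × ℝ, FF A δ ε t G a0 b0 r (y, w)‖ₑ ≤
        ∫⁻ w, ‖∫ y : ℝ × ℝ, FF A δ ε t G a0 b0 r (y, w)‖ₑ := enorm_integral_le_lintegral_enorm _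
      _ ≤ ∫⁻ w, ENNReal.ofReal C * hh w := lintegral_mono s4
      _ = ENNReal.ofReal C * ∫⁻ w, hh w := lintegral_const_mul _ mh
  have s6 : ∫⁻ w, hh w = ∫⁻ x1, ∫⁻ x2, ∫⁻ x3, ∫⁻ x4, ‖G x1‖ₑ * ‖G x2‖ₑ * ‖G x3‖ₑ * ‖G x4‖ₑ *
      ENNReal.ofReal (1 / (1 + t * dS x1 x2 x3 x4) ^ 2) := by
    have e1 : ∫⁻ w, hh w = ∫⁻ a : ℝ × ℝ, ∫⁻ b : ℝ × ℝ, hh (a, b) := lintegral_prod _ mh.aemeasurable
    have m5 : Measurable fun a : ℝ × ℝ => ∫⁻ b : ℝ × ℝ, hh (a, b) := mh.lintegral_prod_right'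
    have e2 : ∫⁻ a : ℝ × ℝ, ∫⁻ b : ℝ × ℝ, hh (a, b) =
        ∫⁻ x1 : ℝ, ∫⁻ x2 : ℝ, ∫⁻ b : ℝ × ℝ, hh ((x1, x2), b) :=
      lintegral_prod (fun a : ℝ × ℝ => ∫⁻ b : ℝ × ℝ, hh (a, b)) m5.aemeasurable
    rw [e1, e2]
    refine lintegral_congr fun x1 => lintegral_congr fun x2 => ?_
    have m6 : Measurable fun b : ℝ × ℝ => hh ((x1, x2), b) := mh.comp measurable_prodMk_left
    rw [show (∫⁻ b : ℝ × ℝ, hh ((x1, x2), b)) = ∫⁻ x3 : ℝ, ∫⁻ x4 : ℝ, hh ((x1, x2), (x3, x4)) from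
      lintegral_prod (fun b : ℝ × ℝ => hh ((x1, x2), b)) m6.aemeasurable]
  have s7 := hS t (fun x => ‖G x‖ₑ) B ht mG (fun x hx => by
    have h1 : r < |x| := by
      by_contra hcon
      rw [not_lt] at hcon
      exact hx (abs_le.1 (hcon.trans hr1))
    rw [h0 x h1, enorm_zero]) hGB
  calc ∫⁻ y in {y : ℝ × ℝ | |y.1 - a0| ≤ r ∧ |y.2 - b0| ≤ r}, ‖TT A δ ε t G y‖ₑ ^ 4
      ≤ ‖∫ y : ℝ × ℝ, ∫ w, FF A δ ε t G a0 b0 r (y, w)‖ₑ := by rw [← s2]; exact s1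
    _ ≤ ENNReal.ofReal C * ∫⁻ w, hh w := by rw [s3]; exact s5
    _ ≤ ENNReal.ofReal C * (C4 * ENNReal.ofReal ((1 + Real.log t) ^ 2 / t ^ 2) * B ^ 2 *
          ∫⁻ x, ‖G x‖ₑ ^ 2) := by
        rw [s6]
        gcongr
    _ = ((C.toNNReal * C4 : ℝ≥0) : ℝ≥0∞) * ENNReal.ofReal ((1 + Real.log t) ^ 2 / t ^ 2) *
          B ^ 2 * ∫⁻ x, ‖G x‖ₑ ^ 2 := by
        rw [ENNReal.coe_mul]
        change (C.toNNReal : ℝ≥0∞) * _ = _
        ring

end Pool.Agent.TH368.MV
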